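import Pool.Agent.Helper60.Idg.ChainTree

namespace Pool.Agent.Results.MP_ee8ab4_co.LowerDim

open Pool.Agent.Helper60.Idg

/-- For every `k ≥ 1` there is a subcubic tree `T` of order `24 k` with
`I_d(T) ≥ (25/48) (24 k) - 1/2`; hence `c_d ≥ 25/48`. -/
theorem result :
    (∀ k : ℕ, 1 ≤ k → ∃ T : SimpleGraph (Fin (24 * k)), SubcubicTree T ∧
      25 / 48 * (24 * k : ℝ) - 1 / 2 ≤ (Idim T : ℝ)) ∧
    25 / 48 ≤ cdim := by
  refine ⟨fun k hk => ⟨chain k, chain_subcubic k hk, ?_⟩, cdim_ge⟩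
  have h : (25 : ℝ) * k ≤ 2 * Idim (chain k) + 1 := by exact_mod_cast lower_dim k
  linarith

end Pool.Agent.Results.MP_ee8ab4_co.LowerDim
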