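import Pool.Agent.Helper60.Idg.Upper

namespace Pool.Agent.Results.MP_ee8ab4_co.UpperDim

open Pool.Agent.Helper60.Idg

/-- Every subcubic tree `T` of order `n ≥ 2` satisfies `I_d(T) ≤ (11/20) n`; hence
`c_d ≤ 11/20`. -/
theorem result :
    (∀ (V : Type) [Fintype V] (T : SimpleGraph V), SubcubicTree T → 2 ≤ Fintype.card V →
      (Idim T : ℝ) ≤ 11 / 20 * (Fintype.card V : ℝ)) ∧
    cdim ≤ 11 / 20 :=
  ⟨fun _ _ _ hT hn => Idim_le hT hn, cdim_le⟩

end Pool.Agent.Results.MP_ee8ab4_co.UpperDim
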